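import Pool.Agent.W5h57.SP.Upper

/-!
# `C¹` cubic splines of optimal approximation order on mixed three-direction meshes

Answer to Q1: yes. For the union-jack pattern (NE-squares where `i + j` is even, NW-squares where
`i + j` is odd), and for every pattern which differs from it only in squares that form clusters of
bounded size, any two clusters being more than three squares apart, the approximation order of
`S_3^1` is exactly four, the optimal order. There are uncountably many such patterns; almost none of
them is periodic.

Definitions (`Pool.Agent.W5h57.SP.Defs`): `Pattern`, `Cell` (the closed triangles of the mesh),
`Splines σ h` (the space `S_3^1` of the mesh of spacing `h`), `HasOrder σ k ρ` (the estimate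
`dist (f, S_3^1) ≤ C ‖D⁴ f‖ |Δ_h| ^ ρ` for `0 < h ≤ 1` and all `f` of class `C^k`), `unionJack`,
`NearUnionJack`.

Proof. The edges of the union-jack mesh which are not parallel to the axes cut the plane into diamonds,
each of which is cut into four triangles by its diagonals. Cubic polynomials `p_w` approximate `f` near
the grid points `w` (Taylor's formula). The spline takes on each diamond the cubic `C¹` piecewise
polynomial of Fraeijs de Veubeke and Sander with sixteen data: values and gradients at the four
vertices, one derivative at the four midpoints of the edges. The data are taken from the polynomials
`p_w`. Near a cluster of squares at which the pattern differs from the union-jack pattern all data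
are taken from one polynomial `p_w`, so that the spline coincides there with `p_w` and the
diagonals of the squares of the cluster play no role; the diamonds around the cluster adapt this
polynomial to the other data. For the upper bound take `f (x, y) = x⁴` and a fourth difference along
an edge of the mesh.
-/

set_option autoImplicit false

namespace Pool.Agent.Results.MP_424b4b_an.UnionJackPatterns

open Pool.Agent.W5h57.SP

/-- For every pattern near the union-jack pattern the approximation order of `S_3^1` is four (for all
classes `C^k` of functions, `k ≥ 4`, `k = ∞` included); the union-jack pattern is one of these patterns, and
they are uncountably many. -/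
theorem result :
    (∀ σ : Pattern, NearUnionJack σ → ∀ k : WithTop ℕ∞, 4 ≤ k →
      IsGreatest {ρ : ℝ | HasOrder σ k ρ} 4) ∧
    NearUnionJack unionJack ∧ ¬ {σ : Pattern | NearUnionJack σ}.Countable :=
  ⟨fun _ h k hk => isGreatest_of_near h k hk, near_unionJack, uncountable_near⟩

end Pool.Agent.Results.MP_424b4b_an.UnionJackPatterns
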